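import Pool.Agent.Helper39.EK.E1a
import Pool.Agent.Helper52.EK.Defs

set_option autoImplicit false

open Complex MeasureTheory Metric Set
open scoped Real ComplexConjugate

/-!
EK, module E6d: scaling, and the moment bound for all univalent functions and all larger powers.
-/

namespace Pool.Agent.Helper28.EK

open Pool.Agent.Helper39.Area Pool.Agent.Helper52.EK

theorem scale_mem {ρ : ℝ} (h0 : 0 < ρ) {z : ℂ} (hz : z ∈ ball (0:ℂ) ρ⁻¹) :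
    (ρ : ℂ) * z ∈ ball (0:ℂ) 1 := by
  rw [mem_ball_zero_iff] at hz ⊢
  rw [norm_mul, Complex.norm_real, Real.norm_eq_abs, abs_of_pos h0]
  have := mul_lt_mul_of_pos_left hz h0
  rwa [mul_inv_cancel₀ h0.ne'] at this

theorem scale_deriv {β : ℂ → ℂ} (h : DifferentiableOn ℂ β (ball 0 1)) {ρ : ℝ} {z : ℂ}
    (hz : (ρ : ℂ) * z ∈ ball (0:ℂ) 1) :
    HasDerivAt (fun z => (ρ : ℂ) * β (ρ * z)) ((ρ : ℂ) * (deriv β (ρ * z) * ρ)) z := by
  have h1 : HasDerivAt β (deriv β (ρ * z)) (ρ * z) :=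
    (h.differentiableAt (isOpen_ball.mem_nhds hz)).hasDerivAt
  have h2 : HasDerivAt (fun z : ℂ => (ρ : ℂ) * z) (ρ : ℂ) z := by
    simpa using (hasDerivAt_id z).const_mul (ρ : ℂ)
  exact (h1.comp z h2).const_mul (ρ : ℂ)

theorem scale_N {β : ℂ → ℂ} (h : DifferentiableOn ℂ β (ball 0 1)) {ρ : ℝ} {z : ℂ}
    (hz : (ρ : ℂ) * z ∈ ball (0:ℂ) 1) :
    N (fun z => (ρ : ℂ) * β (ρ * z)) z = N β (ρ * z) := by
  unfold N
  rw [(scale_deriv h hz).deriv]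
  ring

/-- E6d: scaling -/
theorem scale_ExtR {β : ℂ → ℂ} (h : Ext β) {ρ : ℝ} (h0 : 0 < ρ) (h1 : ρ < 1) :
    ExtR (fun z => (ρ : ℂ) * β (ρ * z)) ρ⁻¹ := by
  have hρC : (ρ : ℂ) ≠ 0 := by exact_mod_cast h0.ne'
  refine ⟨(one_lt_inv₀ h0).2 h1, ?_, ?_, ?_⟩
  · intro z hz
    exact (scale_deriv h.diff (scale_mem h0 hz)).differentiableAt.differentiableWithinAt
  · intro ζ ω hζ hω hζ0 hω0 heq
    have e : ∀ x : ℂ, x ≠ 0 → x⁻¹ + (ρ : ℂ) * β (ρ * x) = ρ * ((ρ * x)⁻¹ + β (ρ * x)) := by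
      intro x hx
      field_simp
    rw [e ζ hζ0, e ω hω0] at heq
    have h3 := mul_left_cancel₀ hρC heq
    have h4 := h.inj _ _ (scale_mem h0 hζ) (scale_mem h0 hω) (mul_ne_zero hρC hζ0)
      (mul_ne_zero hρC hω0) h3
    exact mul_left_cancel₀ hρC h4
  · intro ζ hζ
    have h3 := scale_N h.diff (scale_mem h0 hζ)
    unfold N at h3
    rw [h3]
    exact h.ne _ (scale_mem h0 hζ)

theorem N_cont {β : ℂ → ℂ} (h : Ext β) {r : ℝ} (h0 : 0 < r) (h1 : r < 1) (p : ℝ) :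
    Continuous (fun α : ℝ => ‖N β (r * Complex.exp (α * I))‖ ^ (-p)) := by
  have hmem : ∀ α : ℝ, (r : ℂ) * Complex.exp (α * I) ∈ ball (0:ℂ) 1 := by
    intro α
    rw [mem_ball_zero_iff, norm_mul, Complex.norm_exp_ofReal_mul_I, mul_one, Complex.norm_real,
      Real.norm_eq_abs, abs_of_pos h0]
    exact h1
  have hN : ContinuousOn (fun z => ‖N β z‖ ^ (-p)) (ball (0:ℂ) 1) := by
    have hd : ContinuousOn (deriv β) (ball (0:ℂ) 1) :=
      ((h.diff.deriv isOpen_ball).continuousOn)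
    have h2 : ContinuousOn (fun z => ‖N β z‖) (ball (0:ℂ) 1) := by
      unfold N
      exact (continuousOn_const.sub ((continuousOn_id.pow 2).mul hd)).norm
    refine h2.rpow_const ?_
    intro z hz
    left
    exact norm_ne_zero_iff.2 (h.ne z hz)
  have h3 : Continuous (fun α : ℝ => (r : ℂ) * Complex.exp (α * I)) := by fun_prop
  exact hN.comp_continuous h3 hmem

theorem moment_Ext {κ : ℝ} (hκ : 1 ≤ κ)
    (hM : ∃ C a₀ : ℝ, a₀ < 1 ∧ ∀ (β : ℂ → ℂ) (R a : ℝ), ExtR β R → a₀ < a → a < 1 →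
      (2 * π)⁻¹ * (∫ α in (0:ℝ)..(2 * π), ‖N β (a * Complex.exp (α * I))‖ ^ (-κ)) ≤
        C * (1 - a ^ 2) ^ (-(κ - 1))) :
    ∀ p : ℝ, κ ≤ p → ∃ C : ℝ, ∀ (β : ℂ → ℂ) (r : ℝ), Ext β → 0 < r → r < 1 →
      (2 * π)⁻¹ * (∫ α in (0:ℝ)..(2 * π), ‖N β (r * Complex.exp (α * I))‖ ^ (-p)) ≤
        C * (1 - r ^ 2) ^ (-(p - 1)) := by
  obtain ⟨C₀, a₀, ha₀, hM⟩ := hM
  intro p hp
  obtain ⟨C₁, hC₁⟩ : ∃ C₁ : ℝ, C₁ = |C₀| * 2 ^ (κ - 1) := ⟨_, rfl⟩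
  have hC₁0 : 0 ≤ C₁ := by rw [hC₁]; positivity
  obtain ⟨b, hb⟩ : ∃ b : ℝ, b = max a₀ 0 := ⟨_, rfl⟩
  have hb0 : 0 ≤ b := by rw [hb]; exact le_max_right _ _
  have hb1 : b < 1 := by rw [hb]; exact max_lt ha₀ one_pos
  have hab : a₀ ≤ b := by rw [hb]; exact le_max_left _ _
  have h1b : 0 < 1 - b ^ 2 := by nlinarith
  obtain ⟨C₂, hC₂⟩ : ∃ C₂ : ℝ, C₂ = (1 - b ^ 2) ^ (-p) := ⟨_, rfl⟩
  have hC₂0 : 0 ≤ C₂ := by rw [hC₂]; positivity
  refine ⟨C₁ + C₂, ?_⟩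
  intro β r hβ hr0 hr1
  have hπ : 0 < 2 * π := by positivity
  have h1r : 0 < 1 - r ^ 2 := by nlinarith
  have h1r1 : 1 - r ^ 2 ≤ 1 := by nlinarith
  have hmem : ∀ α : ℝ, ‖(r : ℂ) * Complex.exp (α * I)‖ = r := by
    intro α
    rw [norm_mul, Complex.norm_exp_ofReal_mul_I, mul_one, Complex.norm_real,
      Real.norm_eq_abs, abs_of_pos hr0]
  have hNge : ∀ α : ℝ, 1 - r ^ 2 ≤ ‖N β (r * Complex.exp (α * I))‖ := by
    intro α
    have := Pool.Agent.Helper39.EK.N_ge hβ (z := (r : ℂ) * Complex.exp (α * I))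
      (by rw [hmem]; exact hr1)
    rwa [hmem] at this
  have hcont : ∀ s : ℝ, IntervalIntegrable
      (fun α : ℝ => ‖N β (r * Complex.exp (α * I))‖ ^ (-s)) volume 0 (2 * π) :=
    fun s => (N_cont hβ hr0 hr1 s).intervalIntegrable _ _
  have hpow1 : 1 ≤ (1 - r ^ 2) ^ (-(p - 1)) :=
    Real.one_le_rpow_of_pos_of_le_one_of_nonpos h1r h1r1 (by linarith)
  rcases le_or_gt r b with hrb | hrb
  · -- small radius
    have hle : ∀ α : ℝ, ‖N β (r * Complex.exp (α * I))‖ ^ (-p) ≤ C₂ := by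
      intro α
      rw [hC₂]
      have h2 : 1 - b ^ 2 ≤ 1 - r ^ 2 := by nlinarith
      exact Real.rpow_le_rpow_of_nonpos h1b (h2.trans (hNge α)) (by linarith)
    have hint : (∫ α in (0:ℝ)..(2 * π), ‖N β (r * Complex.exp (α * I))‖ ^ (-p)) ≤
        ∫ _α in (0:ℝ)..(2 * π), C₂ :=
      intervalIntegral.integral_mono_on hπ.le (hcont p) intervalIntegrable_const
        (fun α _ => hle α)
    rw [intervalIntegral.integral_const, smul_eq_mul, sub_zero] at hint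
    have h3 : (2 * π)⁻¹ * (∫ α in (0:ℝ)..(2 * π), ‖N β (r * Complex.exp (α * I))‖ ^ (-p)) ≤
        (2 * π)⁻¹ * (2 * π * C₂) := mul_le_mul_of_nonneg_left hint (by positivity)
    rw [inv_mul_cancel_left₀ hπ.ne'] at h3
    calc _ ≤ C₂ := h3
      _ ≤ C₂ * (1 - r ^ 2) ^ (-(p - 1)) := le_mul_of_one_le_right hC₂0 hpow1
      _ ≤ (C₁ + C₂) * (1 - r ^ 2) ^ (-(p - 1)) :=
          mul_le_mul_of_nonneg_right (by linarith) (by positivity)
  · -- scaling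
    have hex : ∃ ρ : ℝ, r < ρ ∧ ρ < 1 ∧ b < r / ρ ∧ (1 - r ^ 2) / 2 ≤ 1 - (r / ρ) ^ 2 := by
      have hcts : Filter.Tendsto (fun ρ : ℝ => r / ρ) (nhdsWithin 1 (Iio 1)) (nhds r) := by
        have h2 : ContinuousAt (fun ρ : ℝ => r / ρ) 1 :=
          continuousAt_const.div continuousAt_id one_ne_zero
        have h3 := h2.tendsto
        simp only [div_one] at h3
        exact h3.mono_left nhdsWithin_le_nhds
      have hcts2 : Filter.Tendsto (fun ρ : ℝ => 1 - (r / ρ) ^ 2) (nhdsWithin 1 (Iio 1))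
          (nhds (1 - r ^ 2)) := (hcts.pow 2).const_sub 1
      have e1 : ∀ᶠ ρ in nhdsWithin (1:ℝ) (Iio 1), b < r / ρ := hcts.eventually_const_lt hrb
      have e2 : ∀ᶠ ρ in nhdsWithin (1:ℝ) (Iio 1), (1 - r ^ 2) / 2 < 1 - (r / ρ) ^ 2 :=
        hcts2.eventually_const_lt (by linarith)
      have e3 : ∀ᶠ ρ in nhdsWithin (1:ℝ) (Iio 1), r < ρ :=
        (eventually_gt_nhds hr1).filter_mono nhdsWithin_le_nhds
      have e4 : ∀ᶠ ρ in nhdsWithin (1:ℝ) (Iio 1), ρ < 1 := eventually_mem_nhdsWithin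
      obtain ⟨ρ, h4, h5, h6, h7⟩ := (e1.and (e2.and (e3.and e4))).exists
      exact ⟨ρ, h6, h7, h4, h5.le⟩
    obtain ⟨ρ, hrρ, hρ1, hbρ, hhalf⟩ := hex
    have hρ0 : 0 < ρ := hr0.trans hrρ
    have ha1 : r / ρ < 1 := by rw [div_lt_one hρ0]; exact hrρ
    have ha0 : 0 < r / ρ := by positivity
    have h2 := hM _ _ (r / ρ) (scale_ExtR hβ hρ0 hρ1) (lt_of_le_of_lt hab hbρ) ha1
    have hρC : (ρ : ℂ) ≠ 0 := by exact_mod_cast hρ0.ne'
    have hNeq : ∀ α : ℝ, N (fun z => (ρ : ℂ) * β (ρ * z)) (((r / ρ : ℝ) : ℂ) *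
        Complex.exp (α * I)) = N β (r * Complex.exp (α * I)) := by
      intro α
      have e : (ρ : ℂ) * (((r / ρ : ℝ) : ℂ) * Complex.exp (α * I)) = r * Complex.exp (α * I) := by
        push_cast
        field_simp
      rw [scale_N hβ.diff (by
        rw [e, mem_ball_zero_iff, hmem]
        exact hr1), e]
    simp only [hNeq] at h2
    have hκm1 : 0 ≤ κ - 1 := by linarith
    have h3 : (1 - (r / ρ) ^ 2) ^ (-(κ - 1)) ≤ 2 ^ (κ - 1) * (1 - r ^ 2) ^ (-(κ - 1)) := by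
      have h4 : (1 - (r / ρ) ^ 2) ^ (-(κ - 1)) ≤ ((1 - r ^ 2) / 2) ^ (-(κ - 1)) :=
        Real.rpow_le_rpow_of_nonpos (by linarith) hhalf (by linarith)
      refine h4.trans (le_of_eq ?_)
      rw [Real.div_rpow h1r.le (by norm_num), Real.rpow_neg (by norm_num : (0:ℝ) ≤ 2), div_inv_eq_mul,
        mul_comm]
    have h5 : (2 * π)⁻¹ * (∫ α in (0:ℝ)..(2 * π), ‖N β (r * Complex.exp (α * I))‖ ^ (-κ)) ≤
        C₁ * (1 - r ^ 2) ^ (-(κ - 1)) := by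
      have h6 : 0 < 1 - (r / ρ) ^ 2 := by linarith
      calc _ ≤ C₀ * (1 - (r / ρ) ^ 2) ^ (-(κ - 1)) := h2
        _ ≤ |C₀| * (1 - (r / ρ) ^ 2) ^ (-(κ - 1)) :=
            mul_le_mul_of_nonneg_right (le_abs_self _) (by positivity)
        _ ≤ |C₀| * (2 ^ (κ - 1) * (1 - r ^ 2) ^ (-(κ - 1))) :=
            mul_le_mul_of_nonneg_left h3 (abs_nonneg _)
        _ = C₁ * (1 - r ^ 2) ^ (-(κ - 1)) := by rw [hC₁]; ring
    -- larger powers
    have hpt : ∀ α : ℝ, ‖N β (r * Complex.exp (α * I))‖ ^ (-p) ≤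
        (1 - r ^ 2) ^ (-(p - κ)) * ‖N β (r * Complex.exp (α * I))‖ ^ (-κ) := by
      intro α
      have hpos : 0 < ‖N β (r * Complex.exp (α * I))‖ := lt_of_lt_of_le h1r (hNge α)
      have e : (-p) = -(p - κ) + (-κ) := by ring
      rw [e, Real.rpow_add hpos]
      refine mul_le_mul_of_nonneg_right ?_ (by positivity)
      exact Real.rpow_le_rpow_of_nonpos h1r (hNge α) (by linarith)
    have hint : (∫ α in (0:ℝ)..(2 * π), ‖N β (r * Complex.exp (α * I))‖ ^ (-p)) ≤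
        ∫ α in (0:ℝ)..(2 * π), (1 - r ^ 2) ^ (-(p - κ)) *
          ‖N β (r * Complex.exp (α * I))‖ ^ (-κ) :=
      intervalIntegral.integral_mono_on hπ.le (hcont p) ((hcont κ).const_mul _)
        (fun α _ => hpt α)
    rw [intervalIntegral.integral_const_mul] at hint
    have hq0 : (0:ℝ) ≤ (1 - r ^ 2) ^ (-(p - κ)) := by positivity
    calc (2 * π)⁻¹ * (∫ α in (0:ℝ)..(2 * π), ‖N β (r * Complex.exp (α * I))‖ ^ (-p))
        ≤ (2 * π)⁻¹ * ((1 - r ^ 2) ^ (-(p - κ)) *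
          ∫ α in (0:ℝ)..(2 * π), ‖N β (r * Complex.exp (α * I))‖ ^ (-κ)) :=
          mul_le_mul_of_nonneg_left hint (by positivity)
      _ = (1 - r ^ 2) ^ (-(p - κ)) * ((2 * π)⁻¹ *
          ∫ α in (0:ℝ)..(2 * π), ‖N β (r * Complex.exp (α * I))‖ ^ (-κ)) := by ring
      _ ≤ (1 - r ^ 2) ^ (-(p - κ)) * (C₁ * (1 - r ^ 2) ^ (-(κ - 1))) :=
          mul_le_mul_of_nonneg_left h5 hq0
      _ = C₁ * (1 - r ^ 2) ^ (-(p - 1)) := by
          have e : -(p - 1) = -(p - κ) + -(κ - 1) := by ring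
          rw [e, Real.rpow_add h1r]
          ring
      _ ≤ (C₁ + C₂) * (1 - r ^ 2) ^ (-(p - 1)) :=
          mul_le_mul_of_nonneg_right (by linarith) (by positivity)

end Pool.Agent.Helper28.EK
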